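import Pool.Agent.Lib_helper27.TM.E

/-!
# A model of the tree property at `ω₂` in which a Cohen real adds an `ω₂`-Aronszajn tree

This answers Q1 positively, from one measurable cardinal `κ`. (Some large cardinal is needed: the
tree property at `ω₂` implies that `ω₂` is weakly compact in `L`.)

Idea of the proof. Let `Mt` be a version of Mitchell's poset for `κ`, with conditions `(a, q)`, where
`a` is a finite partial function from `κ` to `2` and `q` is a term for a condition of a countably
closed poset. The model is the extension by the poset `Pc` of the pairs `(m, e)`, where `m` is in `Mt`
and `e` is an `Mt`-name for a well-behaved tree of height less than `κ` with a last level, the nodes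
of which are names for elements of the `2^γ` for the Cohen poset; it is ordered by end-extension.
The generic tree of names is a name for a tree of height `κ = ω₂`, and it has no cofinal branch after
adding a Cohen real, by a genericity argument.

For the tree property, suppose that some condition forces that a tree relation on `κ × ω₁` has no
branch. The coordinate `α` of `q` is read as a decreasing sequence of names of trees with a marked
cofinal branch. So for many `α` (in the sense of a normal ultrafilter) the generic object of `Mt`
below `α + 1` yields a generic object of `Pc` below `α`, the generic tree of which has a
branch, and thus has an extension `t` by one more level, which is a condition. Below `t` the node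
`(α, i)` defines a branch of the part of the tree relation below `α`. This branch is not in the
extension by `Pc` below `α`; and a finite part of the Cohen poset on the coordinates from `α` on does
not suffice to define it. By changing the marked branch in smaller and smaller neighbourhoods of
one point of the Cantor space one gets a perfect tree of conditions, with branches `q_f` for all
reals `f`, such that all `q_f` yield the same tree, and such that different `q_f` decide the
branch of the tree relation differently. There are `α` many reals (read off the Cohen poset below
`α`), while the levels have size `ω₁`; this contradicts the chain condition of `Mt` below `α`.
-/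

namespace Pool.Agent.Results.MP_5ef322_lc.CohenAronszajnMeasurable

open Pool.Agent.Lib_helper27 Pool.Agent.Lib_helper27.Fml Pool.Agent.Lib_helper27.V
  Pool.Agent.Lib_helper27.Q Cardinal Pool.Agent.T27

/-- **Cohen forcing can add an `ω₂`-Aronszajn tree to a model of the tree property at `ω₂`.**

If there is a measurable cardinal, then there is a model `(M, E)` of ZFC with the tree property at
`ω₂` such that every condition of the Cohen poset of `(M, E)` forces that there is an
`ω₂`-Aronszajn tree. -/
theorem result {κ : Cardinal.{0}} (hκ : MeasC κ) :
    ∃ (M : Type 1) (E : M → M → Prop), IsModelOfZFC E ∧ Holds E TP2 ∧
      (∃! C : M, Holds E (isCohenPoset C)) ∧
      ∀ C : M, Holds E (isCohenPoset C) →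
        (∃! A : AtomForce (Cond E C) M, IsForcingRelation E C A) ∧
        ∀ A : AtomForce (Cond E C) M, IsForcingRelation E C A →
          ∀ p : Cond E C, Forces A p aronszajn :=
  Pool.Agent.T27.main hκ

end Pool.Agent.Results.MP_5ef322_lc.CohenAronszajnMeasurable
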