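import Pool.Agent.Lib_helper27.Exist

/-!
# Adding a Cohen real never adds a weak Kurepa tree: the answer to Q2 is negative

Let `(M, E)` be an arbitrary model of ZFC (not assumed well-founded, nor countable). If `(M, E)`
satisfies `¬ wKH(ω₁)` (there is no weak Kurepa tree at `ω₁`), then every condition of the Cohen
poset of `(M, E)` forces `¬ wKH(ω₁)`.  So no hypothesis such as `GMP` is needed in this
preservation result.

Idea of the proof.  Suppose that `p` forces that `(T, R)` is a tree on `ω₁` of height `ω₁`, and that
`F` is an injection from `ω₂` into a set of cofinal branches of it.  For a condition `r ≤ p` let
`α <_r β` mean that `r` forces `α R β`.  Each `(ω₁, <_r)` is a tree-like order in the ground model.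
For each of the `ω₂` many names for branches, every level `a < ω₁` and every condition, some
stronger condition decides the node of the branch at level `a`.  As there are only countably many
conditions, for each branch there is one condition `r` which decides its nodes on cofinally many
levels, and (counting the branches) one condition `r` works for `ω₂` many branches; the nodes
decided by `r` generate `ω₂` many cofinal branches of the ground model tree obtained from `<_r`.

The statement also contains the facts that the Cohen poset and its forcing relation exist and
are unique, so it is not vacuous.
-/

namespace Pool.Agent.Results.MP_5ef322_lc.CohenWeakKurepa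

open Pool.Agent.Lib_helper27 Pool.Agent.Lib_helper27.Fml

universe u

/-- **Cohen forcing preserves the failure of the weak Kurepa hypothesis, over every model of ZFC.**

Let `(M, E)` be a model of ZFC. Then it has exactly one Cohen poset `C` (the set of finite partial
functions from `ω` to `2`, ordered by reverse inclusion), there is exactly one forcing relation `A`
for `C` over `(M, E)`, and if `(M, E)` satisfies `¬ wKH(ω₁)` then every condition in `C` forces
`¬ wKH(ω₁)`. -/
theorem result {M : Type u} (E : M → M → Prop) (hM : IsModelOfZFC E) :
    (∃! C : M, Holds E (isCohenPoset C)) ∧
      ∀ C : M, Holds E (isCohenPoset C) →
        (∃! A : AtomForce (Cond E C) M, IsForcingRelation E C A) ∧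
          ∀ A : AtomForce (Cond E C) M, IsForcingRelation E C A →
            Holds E (neg wKH) → ∀ p : Cond E C, Forces A p (neg wKH) :=
  main E hM

end Pool.Agent.Results.MP_5ef322_lc.CohenWeakKurepa
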